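import Pool.Agent.Y984.ML.Concl

set_option autoImplicit false

namespace Pool.Agent.Results.MP_bada7b_pr.ThreeStates

open Pool.Agent.Y984.ML

/-- There is no absolute constant `C` with `1 / c_MLS ≤ C ρ_ent`, or even with
`1 / c_MLS ≤ C τ_ent`, for all finite irreducible reversible chains: for every choice `c > 0` of
the constant `C_ent` in the definition of `ρ_ent` and every `C` there is a chain with three states
for which both inequalities fail (all the quantities involved being well defined and finite). -/
theorem result (c : ℝ) (hc : 0 < c) (C : ℝ) :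
    ∃ (P : Matrix (Fin 3) (Fin 3) ℝ) (π : Fin 3 → ℝ), IsReversibleChain P π ∧
      (∀ x, (hitTimes c P π x).Nonempty) ∧ (∀ x, (entTimes P π x).Nonempty) ∧ 0 < cMLS P π ∧
      C * rhoEnt c P π < 1 / cMLS P π ∧ C * tauEnt P π < 1 / cMLS P π :=
  main c hc C

end Pool.Agent.Results.MP_bada7b_pr.ThreeStates
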